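import Pool.Agent.W2helper76.HL.Base

/-!
# Project HL: the elimination of a square
-/

set_option autoImplicit false

namespace Pool.Agent.W2helper76.HL

open UpperHalfPlane H294ZP MvPolynomial
open Pool.Agent.W2helper42.HL

/-- coefficients of the six masked numbers -/
def ca : Fin 6 → ℤ := ![1, 1, 1, 0, 0, 0]
def cm : Fin 6 → ℤ := ![1, 0, -1, 1, 1, 2]
def cn : Fin 6 → ℤ := ![0, 1, -1, -1, 2, 1]

lemma det_ne : ∀ l l' : Fin 6, l ≠ l' → cm l * cn l' - cm l' * cn l ≠ 0 := by decide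

/-- the masked numbers -/
def uu (A p q : ℂ) (l : Fin 6) : ℂ := (ca l : ℂ) * A + (cm l : ℂ) * p + (cn l : ℂ) * q

lemma solve (A p q : ℂ) {l l' : Fin 6} (h : l ≠ l') {F : Set ℂ} (hadd : ∀ x ∈ F, ∀ y ∈ F, x - y ∈ F)
    (hmul : ∀ x ∈ F, ∀ y ∈ F, x * y ∈ F) (hdiv : ∀ x ∈ F, ∀ y ∈ F, x / y ∈ F)
    (hint : ∀ n : ℤ, (n : ℂ) ∈ F) (hA : A ∈ F) (h1 : uu A p q l ∈ F) (h2 : uu A p q l' ∈ F) :
    p ∈ F ∧ q ∈ F := by
  have hD : ((cm l * cn l' - cm l' * cn l : ℤ) : ℂ) ≠ 0 := by exact_mod_cast det_ne l l' h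
  have e1 : uu A p q l - (ca l : ℂ) * A ∈ F := hadd _ h1 _ (hmul _ (hint _) _ hA)
  have e2 : uu A p q l' - (ca l' : ℂ) * A ∈ F := hadd _ h2 _ (hmul _ (hint _) _ hA)
  constructor
  · have : p = ((uu A p q l - (ca l : ℂ) * A) * (cn l' : ℂ) -
        (uu A p q l' - (ca l' : ℂ) * A) * (cn l : ℂ)) / ((cm l * cn l' - cm l' * cn l : ℤ) : ℂ) := by
      rw [eq_div_iff hD]; push_cast [uu]; ring
    rw [this]
    exact hdiv _ (hadd _ (hmul _ e1 _ (hint _)) _ (hmul _ e2 _ (hint _))) _ (hint _)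
  · have : q = ((uu A p q l' - (ca l' : ℂ) * A) * (cm l : ℂ) -
        (uu A p q l - (ca l : ℂ) * A) * (cm l' : ℂ)) / ((cm l * cn l' - cm l' * cn l : ℤ) : ℂ) := by
      rw [eq_div_iff hD]; push_cast [uu]; ring
    rw [this]
    exact hdiv _ (hadd _ (hmul _ e2 _ (hint _)) _ (hmul _ e1 _ (hint _))) _ (hint _)

lemma solve_fld (A p q : ℂ) {l l' : Fin 6} (h : l ≠ l') {K : Subfield ℂ}
    (F : IntermediateField K ℂ) (hA : A ∈ F) (h1 : uu A p q l ∈ F) (h2 : uu A p q l' ∈ F) :
    p ∈ F ∧ q ∈ F :=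
  solve A p q h (F := (F : Set ℂ)) (fun _ hx _ hy => sub_mem hx hy) (fun _ hx _ hy => mul_mem hx hy)
    (fun _ hx _ hy => div_mem hx hy) (fun n => intCast_mem F n) hA h1 h2

/-- two numbers which generate `p`, `q` are not both algebraic over one generator -/
lemma not_both (h1 : A_SUM_LE) (h2 : A_SUM_GE) {ι : Type} [Finite ι] {K : Subfield ℂ}
    {a : ι → ℂ} {p q : ℂ} (ht : AlgebraicIndependent (fld K a) ![p, q]) (w : Fin 2 → ℂ)
    (s : Fin 1 → ℂ) (hp : p ∈ fld K (Sum.elim a w)) (hq : q ∈ fld K (Sum.elim a w))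
    (h : ∀ j, IsAlgebraic (fld K (Sum.elim a s)) (w j)) : False := by
  have e1 := h1 ι (Fin 2) K a w 1 s h
  have e2 := h2 ι (Fin 2) K a w 2 ![p, q] ht (by
    intro j; fin_cases j
    · exact hp
    · exact hq)
  omega

lemma fld_left {ι ω : Type} {K : Subfield ℂ} (a : ι → ℂ) (w : ω → ℂ) :
    fld K a ≤ fld K (Sum.elim a w) :=
  fld_le fun i => mem_fld K (Sum.elim a w) (Sum.inl i)

lemma mem_right {ι ω : Type} {K : Subfield ℂ} (a : ι → ℂ) (w : ω → ℂ) (j : ω) :
    w j ∈ fld K (Sum.elim a w) :=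
  mem_fld K (Sum.elim a w) (Sum.inr j)

/-- the masked numbers are transcendental over `K(a)` and pairwise algebraically independent -/
lemma masked (h1 : A_SUM_LE) (h2 : A_SUM_GE) {ι : Type} [Finite ι] {K : Subfield ℂ}
    {a : ι → ℂ} {A p q : ℂ} (hA : A ∈ fld K a) (ht : AlgebraicIndependent (fld K a) ![p, q])
    {l l' : Fin 6} (hl : l ≠ l') (s : Fin 1 → ℂ) (hs : s 0 = uu A p q l) :
    ¬ IsAlgebraic (fld K (Sum.elim a s)) (uu A p q l') := by
  intro h
  set w : Fin 2 → ℂ := ![uu A p q l, uu A p q l'] with hw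
  have hm := solve_fld A p q hl (fld K (Sum.elim a w)) (fld_left a w hA) (mem_right a w 0)
    (mem_right a w 1)
  refine not_both h1 h2 ht w s hm.1 hm.2 fun j => ?_
  fin_cases j
  · exact algebraic_of_mem _ (by simpa [hw, hs] using mem_right (K := K) a s 0)
  · simpa [hw] using h

lemma masked_trans (h1 : A_SUM_LE) (h2 : A_SUM_GE) {ι : Type} [Finite ι] {K : Subfield ℂ}
    {a : ι → ℂ} {A p q : ℂ} (hA : A ∈ fld K a) (ht : AlgebraicIndependent (fld K a) ![p, q])
    (l : Fin 6) : ¬ IsAlgebraic (fld K a) (uu A p q l) := by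
  intro h
  obtain ⟨l', hl'⟩ : ∃ l' : Fin 6, l' ≠ l := exists_ne l
  exact masked h1 h2 hA ht hl' ![uu A p q l'] rfl (algebraic_mono (fld_left a _) h)

/-- **R_SQ** -/
theorem r_sq (hJ : JF) (hA : AF) (hS : SF) (hR : R_MAIN) (β γ : ℂ) (hH : HeckeSpec β γ) :
    R_SQ β γ := by
  intro ι _ A J k f hEv
  obtain ⟨hJP, hJR, -⟩ := hJ
  obtain ⟨-, -, -, -, hLE, hGE, hNEW⟩ := hA
  obtain ⟨hβ, hγ, hH1, hH2⟩ := hH
  classical
  -- pairs
  set E : Finset ((Fin 6 × Fin 4) × (Fin 6 × Fin 4)) :=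
    (Finset.univ : Finset (Fin 6 × Fin 3)).image (fun s => ((s.1, 0), (s.1, s.2.succ))) with hE
  have memE : ∀ l : Fin 6, ∀ i : Fin 3, ((l, (0 : Fin 4)), (l, i.succ)) ∈ E := fun l i =>
    Finset.mem_image.2 ⟨(l, i), Finset.mem_univ _, rfl⟩
  -- coefficients
  set S : Set ℂ := Set.range (fun m => A.coeff m) ∪ ⋃ j, Set.range (fun m => (f j).coeff m) with hSdef
  have hSc : S.Countable := by
    refine (Set.countable_range _).union (Set.countable_iUnion fun j => Set.countable_range _)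
  refine hR ι (Fin 6 × Fin 4) (Fin 6) _ _ k (k + 4) 2 (fun l => (l, 0)) E
    (fun z => ∀ l : Fin 6, Function.Injective (fun i : Fin 3 => z (Sum.inr (l, i.succ)))) S hSc
    (by simp) ?_ ?_ ?_ hEv
  · rintro ⟨l, i⟩
    rcases Fin.eq_zero_or_eq_succ i with rfl | ⟨i', rfl⟩
    · exact Or.inl ⟨l, rfl⟩
    · exact Or.inr ⟨l, memE l i'⟩
  · intro p hp
    obtain ⟨s, -, rfl⟩ := Finset.mem_image.1 hp
    exact ⟨s.1, rfl⟩
  intro K hK hSK
  have hβK : β ∈ K := alg_mem hK hβ
  have hγK : γ ∈ K := alg_mem hK hγ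
  obtain ⟨A', hA'⟩ := lift_mv (K := K) A fun m => hSK (Or.inl ⟨m, rfl⟩)
  have hf' : ∀ j, ∃ g : MvPolynomial (Option ι) K, ∀ x, aeval x g = eval x (f j) := fun j =>
    lift_mv (K := K) (f j) fun m => hSK (Or.inr (Set.mem_iUnion.2 ⟨j, m, rfl⟩))
  choose f' hf' using hf'
  refine ⟨?_, ?_, ?_, ?_⟩
  · -- closed
    set βK : K := ⟨β, hβK⟩
    set γK : K := ⟨γ, hγK⟩
    let W : Fin 6 → Fin 4 → MvPolynomial (ι ⊕ (Fin 6 × Fin 4)) K := fun l i => X (Sum.inr (l, i))
    let sqfP : Fin 6 → MvPolynomial (ι ⊕ (Fin 6 × Fin 4)) K := fun l =>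
      W l 1 + W l 2 + W l 3 - C βK * W l 0 - C γK
    let sqsP : MvPolynomial (ι ⊕ (Fin 6 × Fin 4)) K :=
      C (1 / 3) * (sqfP 0 + sqfP 1 + sqfP 2) - C (1 / 9) * (sqfP 3 + sqfP 4 + sqfP 5)
    let G : Fin J → MvPolynomial (ι ⊕ (Fin 6 × Fin 4)) K := fun j =>
      bind₁ (fun o : Option ι => o.elim sqsP fun i => X (Sum.inl i)) (f' j)
    let AP : MvPolynomial (ι ⊕ (Fin 6 × Fin 4)) K := rename Sum.inl A'
    let L : Fin 4 → MvPolynomial (ι ⊕ (Fin 6 × Fin 4)) K := ![
      C 3 * W 0 0 - (C 3 * AP + (W 3 0 + W 5 0)),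
      C 3 * W 1 0 - (C 3 * AP + (W 4 0 - W 3 0)),
      C 3 * W 2 0 - (C 3 * AP - (W 3 0 + W 5 0) - (W 4 0 - W 3 0)),
      W 5 0 - (W 3 0 + W 4 0)]
    have hsqf : ∀ (z : ι ⊕ (Fin 6 × Fin 4) → ℂ) l, aeval z (sqfP l) =
        sqf β γ (fun s => z (Sum.inr s)) l := by
      intro z l
      simp only [sqfP, W, sqf, map_sub, map_mul, map_add, aeval_X, aeval_C]
      rfl
    have e3 : algebraMap K ℂ 3 = 3 := map_ofNat _ 3
    have e9 : algebraMap K ℂ 9 = 9 := map_ofNat _ 9
    have hsqs : ∀ z : ι ⊕ (Fin 6 × Fin 4) → ℂ, aeval z sqsP =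
        sqs β γ (fun s => z (Sum.inr s)) := by
      intro z
      simp only [sqsP, map_sub, map_mul, map_add, hsqf, sqs, aeval_C, map_div₀, map_one, e3, e9]
      ring
    have hG : ∀ (z : ι ⊕ (Fin 6 × Fin 4) → ℂ) j, aeval z (G j) =
        eval (fun o : Option ι => o.elim (sqs β γ fun s => z (Sum.inr s))
          fun i => z (Sum.inl i)) (f j) := by
      intro z j
      simp only [G, aeval_bind₁]
      rw [← hf']
      congr 1
      congr 1
      funext o
      cases o with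
      | none => exact hsqs z
      | some i => simp
    have hAP : ∀ z : ι ⊕ (Fin 6 × Fin 4) → ℂ, aeval z AP = eval (fun s => z (Sum.inl s)) A := by
      intro z
      simp only [AP, aeval_rename]
      exact hA' _
    have h3 : ∀ z : ι ⊕ (Fin 6 × Fin 4) → ℂ, aeval z (C 3 : MvPolynomial _ K) = 3 := by
      intro z; rw [aeval_C]; exact e3
    refine ⟨Set.range G ∪ Set.range L, ?_⟩
    ext z
    constructor
    · rintro ⟨hz1, q0, q1, q2, q3⟩ g (⟨j, rfl⟩ | ⟨i, rfl⟩)
      · rw [hG]; exact hz1 j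
      · fin_cases i
        · simp only [L, Fin.zero_eta, Matrix.cons_val_zero, map_sub, map_mul, map_add, hAP, h3, W,
            aeval_X]
          exact sub_eq_zero.2 q0
        · simp only [L, Fin.mk_one, Matrix.cons_val_one, Matrix.cons_val, map_sub, map_mul,
            map_add, hAP, h3, W, aeval_X]
          exact sub_eq_zero.2 q1
        · simp only [L, Fin.reduceFinMk, Matrix.cons_val, map_sub, map_mul,
            map_add, hAP, h3, W, aeval_X]
          exact sub_eq_zero.2 q2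
        · simp only [L, Fin.reduceFinMk, Matrix.cons_val, map_sub, map_mul,
            map_add, hAP, h3, W, aeval_X]
          exact sub_eq_zero.2 q3
    · intro hz
      refine ⟨fun j => ?_, ?_, ?_, ?_, ?_⟩
      · rw [← hG]; exact hz _ (Or.inl ⟨j, rfl⟩)
      · have := hz (L 0) (Or.inr ⟨0, rfl⟩)
        simp only [L, Matrix.cons_val_zero, map_sub, map_mul, map_add, hAP, h3, W,
            aeval_X] at this
        exact sub_eq_zero.1 this
      · have := hz (L 1) (Or.inr ⟨1, rfl⟩)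
        simp only [L, Matrix.cons_val_one, Matrix.cons_val, map_sub, map_mul,
            map_add, hAP, h3, W, aeval_X] at this
        exact sub_eq_zero.1 this
      · have := hz (L 2) (Or.inr ⟨2, rfl⟩)
        simp only [L, Matrix.cons_val, map_sub, map_mul,
            map_add, hAP, h3, W, aeval_X] at this
        exact sub_eq_zero.1 this
      · have := hz (L 3) (Or.inr ⟨3, rfl⟩)
        simp only [L, Matrix.cons_val, map_sub, map_mul,
            map_add, hAP, h3, W, aeval_X] at this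
        exact sub_eq_zero.1 this
  · -- open condition
    intro z z' hzz hQ l i i' hii
    apply hQ l
    have := hzz (X (Sum.inr (l, i.succ)) - X (Sum.inr (l, i'.succ))) (by
      simpa [sub_eq_zero] using hii)
    simpa [sub_eq_zero] using this
  · -- lifts
    intro a ha
    obtain ⟨t, ht⟩ := hNEW ι K hK a 2
    have htt : t = ![t 0, t 1] := by
      ext j; fin_cases j <;> rfl
    rw [htt] at ht
    set p := t 0
    set q := t 1
    set A₀ := eval a A with hA₀
    have hAm : A₀ ∈ fld K a := by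
      rw [hA₀, ← hA' a]
      exact eval_mem _ _ (mem_fld K a)
    choose v hv1 hv2 hv3 using hH1
    set w : Fin 6 × Fin 4 → ℂ := fun s =>
      Fin.cases (uu A₀ p q s.1) (v (uu A₀ p q s.1)) s.2 with hw
    have w0 : ∀ l, w (l, 0) = uu A₀ p q l := fun l => rfl
    have ws : ∀ l (i : Fin 3), w (l, i.succ) = v (uu A₀ p q l) i := fun l i => rfl
    have w1 : ∀ l, w (l, 1) = v (uu A₀ p q l) 0 := fun l => ws l 0
    have w2 : ∀ l, w (l, 2) = v (uu A₀ p q l) 1 := fun l => ws l 1
    have w3 : ∀ l, w (l, 3) = v (uu A₀ p q l) 2 := fun l => ws l 2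
    have hsqf : ∀ l, sqf β γ w l = (uu A₀ p q l) ^ 2 := by
      intro l
      simp only [sqf, w0, w1, w2, w3, hv2]
      ring
    have hsqs : sqs β γ w = A₀ ^ 2 := by
      simp only [sqs, hsqf]
      simp only [uu, ca, cm, cn, Matrix.cons_val_zero, Matrix.cons_val_one, Matrix.cons_val]
      push_cast
      ring
    have hq4 : Sq4 A₀ w := by
      simp only [Sq4, w0]
      simp only [uu, ca, cm, cn, Matrix.cons_val_zero, Matrix.cons_val_one, Matrix.cons_val]
      push_cast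
      refine ⟨by ring, by ring, by ring, by ring⟩
    have htr : ∀ l, ¬ IsAlgebraic (fld K a) (uu A₀ p q l) := masked_trans hLE hGE hAm ht
    have htq : ∀ l, Transcendental ℚ (uu A₀ p q l) := fun l h =>
      htr l (h.extendScalars (algebraMap ℚ (fld K a)).injective)
    refine ⟨w, ⟨?_, ?_⟩, ?_, ?_, ?_, ?_, ?_, ?_⟩
    · intro j
      have := ha j
      simp only [Sum.elim_inl, Sum.elim_inr]
      rw [show (fun s => w s) = w from rfl, hsqs]
      exact this
    · exact hq4
    · intro e he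
      obtain ⟨s, -, rfl⟩ := Finset.mem_image.1 he
      exact hv1 _ _
    · intro l
      exact hv3 _ (htq l)
    · refine hGE ι _ K a w 2 ![p, q] ht fun j => ?_
      have := solve_fld A₀ p q (show (0 : Fin 6) ≠ 1 by decide) (fld K (Sum.elim a w))
        (fld_left a w hAm) (mem_right a w (0, 0)) (mem_right a w (1, 0))
      fin_cases j
      · exact this.1
      · exact this.2
    · intro l hsp
      exact htq l (hJR.2.2.2.2.2 _ hsp)
    · intro l l' hll hiso
      refine masked hLE hGE hAm ht hll ![uu A₀ p q l] rfl ?_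
      exact isog_alg hJP hK _ hiso (mem_right a ![uu A₀ p q l] 0)
    · intro i l hiso
      exact htr l (isog_alg hJP hK _ hiso (mem_fld K a i))
  · -- the converse
    rintro x v ⟨hv1, hv2⟩ hE' hQ
    left
    have hcyc : ∀ l (i : Fin 3), Cyc 2 (v (l, 0)) (v (l, i.succ)) := fun l i => hE' _ (memE l i)
    simp only [Sum.elim_inl, Sum.elim_inr] at hv1 hv2 hQ
    have hsqf : ∀ l, sqf β γ v l = (v (l, 0)) ^ 2 := by
      intro l
      have := hH2 (v (l, 0)) (fun i : Fin 3 => v (l, i.succ)) (hcyc l) (hQ l)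
      have e : v (l, 1) + v (l, 2) + v (l, 3) = v (l, 0) ^ 2 + β * v (l, 0) + γ := this
      simp only [sqf, e]
      ring
    obtain ⟨q0, q1, q2, q3⟩ := hv2
    set A₀ := eval (fun s => x s) A with hA₀
    have hsqs : sqs β γ v = A₀ ^ 2 := by
      simp only [sqs, hsqf]
      have e0 : v (0, 0) = A₀ + (v (3, 0) + v (5, 0)) / 3 := by linear_combination q0 / 3
      have e1 : v (1, 0) = A₀ + (v (4, 0) - v (3, 0)) / 3 := by linear_combination q1 / 3
      have e2 : v (2, 0) = A₀ - (v (3, 0) + v (5, 0)) / 3 - (v (4, 0) - v (3, 0)) / 3 := by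
        linear_combination q2 / 3
      have e3 : v (5, 0) = v (3, 0) + v (4, 0) := q3
      rw [e0, e1, e2, e3]
      ring
    refine ⟨?_, ?_⟩
    · intro j
      have := hv1 j
      rw [show (fun s => v s) = v from rfl, hsqs] at this
      exact this
    · set p := (v (3, 0) + v (5, 0)) / 3 with hp
      set q := (v (4, 0) - v (3, 0)) / 3 with hq
      refine hLE ι _ K x v 2 ![p, q] ?_
      have hpm : p ∈ fld K (Sum.elim x ![p, q]) := mem_right x ![p, q] 0
      have hqm : q ∈ fld K (Sum.elim x ![p, q]) := mem_right x ![p, q] 1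
      have hAm : A₀ ∈ fld K (Sum.elim x ![p, q]) := by
        rw [hA₀, ← hA' x]
        exact eval_mem _ _ fun i => mem_fld K (Sum.elim x ![p, q]) (Sum.inl i)
      have hv0 : ∀ l, v (l, 0) = uu A₀ p q l := by
        intro l
        fin_cases l <;>
          simp only [uu, ca, cm, cn, Matrix.cons_val_zero, Matrix.cons_val_one, Matrix.cons_val,
            Fin.zero_eta, Fin.mk_one, Fin.reduceFinMk] <;> push_cast
        · rw [hp]; linear_combination q0 / 3
        · rw [hq]; linear_combination q1 / 3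
        · rw [hp, hq]; linear_combination q2 / 3
        · rw [hp, hq]; linear_combination (-1 / 3 : ℂ) * q3
        · rw [hp, hq]; linear_combination (-1 / 3 : ℂ) * q3
        · rw [hp, hq]; linear_combination (1 / 3 : ℂ) * q3
      have hvm : ∀ l, v (l, 0) ∈ fld K (Sum.elim x ![p, q]) := by
        intro l
        rw [hv0, uu]
        exact add_mem (add_mem (mul_mem (intCast_mem _ _) hAm) (mul_mem (intCast_mem _ _) hpm))
          (mul_mem (intCast_mem _ _) hqm)
      rintro ⟨l, i⟩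
      rcases Fin.eq_zero_or_eq_succ i with rfl | ⟨i', rfl⟩
      · exact algebraic_of_mem _ (hvm l)
      · exact cyc_alg hJP hK _ (by norm_num) (hcyc l i') (hvm l)

end Pool.Agent.W2helper76.HL
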