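import Pool.Agent.W2helper76.HL.Base

/-!
# Project HL: the special dimension
-/

set_option autoImplicit false

namespace Pool.Agent.W2helper76.HL

open UpperHalfPlane H294ZP MvPolynomial
open Pool.Agent.W2helper42.HL

/-- transversal -/
def Tv {ι : Type} (x : ι → ℂ) (s : Finset ι) : Prop :=
  (∀ i ∈ s, ¬ SpecialPoint (x i)) ∧ ∀ i ∈ s, ∀ j ∈ s, i ≠ j → ¬ Isog (x i) (x j)

lemma sd_eq {ι : Type} (x : ι → ℂ) : sd x = sSup {m : ℕ | ∃ s : Finset ι, s.card = m ∧ Tv x s} :=
  rfl

lemma tv_bdd {ι : Type} [Finite ι] (x : ι → ℂ) :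
    BddAbove {m : ℕ | ∃ s : Finset ι, s.card = m ∧ Tv x s} := by
  refine ⟨Nat.card ι, ?_⟩
  rintro _ ⟨s, rfl, -⟩
  have := Fintype.ofFinite ι
  rw [Nat.card_eq_fintype_card]
  exact Finset.card_le_univ s

lemma tv_nonempty {ι : Type} (x : ι → ℂ) :
    {m : ℕ | ∃ s : Finset ι, s.card = m ∧ Tv x s}.Nonempty :=
  ⟨0, ∅, by simp, by simp [Tv]⟩

lemma le_sd {ι : Type} [Finite ι] {x : ι → ℂ} {s : Finset ι} (h : Tv x s) : s.card ≤ sd x :=
  le_csSup (tv_bdd x) ⟨s, rfl, h⟩

lemma exists_sd {ι : Type} [Finite ι] (x : ι → ℂ) : ∃ s : Finset ι, Tv x s ∧ s.card = sd x := by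
  obtain ⟨s, h1, h2⟩ := Nat.sSup_mem (tv_nonempty x) (tv_bdd x)
  exact ⟨s, h2, h1⟩

lemma sd_le_of {ι : Type} {x : ι → ℂ} {m : ℕ} (h : ∀ s, Tv x s → s.card ≤ m) : sd x ≤ m := by
  refine csSup_le (tv_nonempty x) ?_
  rintro _ ⟨s, rfl, hs⟩
  exact h s hs

/-- `x i` is isogenous to itself -/
lemma isog_refl (hJ : J_REL) (x : ℂ) : Isog x x := ⟨1, one_pos, hJ.1 x⟩

lemma isog_symm (hJ : J_REL) {x y : ℂ} (h : Isog x y) : Isog y x := by
  obtain ⟨N, hN, h⟩ := h
  exact ⟨N, hN, hJ.2.1 N x y hN h⟩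

lemma isog_trans (hJ : J_REL) {x y z : ℂ} (h : Isog x y) (h' : Isog y z) : Isog x z :=
  hJ.2.2.1 x y z h h'

lemma special_iff (hJ : J_REL) {x y : ℂ} (h : Isog x y) : SpecialPoint x ↔ SpecialPoint y :=
  ⟨fun hx => hJ.2.2.2.2.1 x y hx h, fun hy => hJ.2.2.2.2.1 y x hy (isog_symm hJ h)⟩

/-- representatives in a maximal transversal -/
lemma rep (hJ : J_REL) {ι : Type} [Finite ι] {x : ι → ℂ} {s : Finset ι} (h : Tv x s)
    (hs : s.card = sd x) {i : ι} (hi : ¬ SpecialPoint (x i)) : ∃ r ∈ s, Isog (x r) (x i) := by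
  classical
  by_contra hcon
  push Not at hcon
  have his : i ∉ s := fun his => hcon i his (isog_refl hJ _)
  have : Tv x (insert i s) := by
    constructor
    · intro k hk
      rcases Finset.mem_insert.1 hk with rfl | hk
      · exact hi
      · exact h.1 k hk
    · intro k hk l hl hkl
      rcases Finset.mem_insert.1 hk with hk1 | hk1
      · rcases Finset.mem_insert.1 hl with hl1 | hl1
        · exact absurd (hk1.trans hl1.symm) hkl
        · exact fun hh => hcon l hl1 (isog_symm hJ (hk1 ▸ hh))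
      · rcases Finset.mem_insert.1 hl with hl1 | hl1
        · exact fun hh => hcon k hk1 (hl1 ▸ hh)
        · exact h.2 k hk1 l hl1 hkl
  have := le_sd this
  rw [Finset.card_insert_of_notMem his] at this
  omega

/-- upper bound by representatives -/
lemma sd_le_card (hJ : J_REL) {ι ρ : Type} [Finite ρ] {x : ι → ℂ} (y : ρ → ℂ)
    (h : ∀ i, ¬ SpecialPoint (x i) → ∃ l, Isog (y l) (x i)) : sd x ≤ Nat.card ρ := by
  classical
  have := Fintype.ofFinite ρ
  refine sd_le_of fun s hs => ?_
  have h' : ∀ i : s, ∃ l, Isog (y l) (x i) := fun i => h i (hs.1 i i.2)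
  choose g hg using h'
  have hinj : Function.Injective g := by
    intro i j hij
    by_contra hne
    refine hs.2 i i.2 j j.2 (fun he => hne (Subtype.ext he)) ?_
    have h1 := hg i
    rw [hij] at h1
    exact isog_trans hJ (isog_symm hJ h1) (hg j)
  have := Fintype.card_le_of_injective g hinj
  rw [Nat.card_eq_fintype_card]
  simpa using this

/-- the modular equation between two coordinates -/
lemma mod_eq (hJ : J_POLY) {ι : Type} {K : Subfield ℂ} (hK : Gd K) {N : ℕ} (hN : 0 < N)
    (i j : ι) : ∃ f : MvPolynomial ι K, ∀ z : ι → ℂ, aeval z f = 0 ↔ Cyc N (z i) (z j) := by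
  obtain ⟨Φ, hm, hc, hΦ⟩ := hJ N hN
  refine ⟨∑ n ∈ Finset.range (Φ.natDegree + 1), (∑ k ∈ Finset.range ((Φ.coeff n).natDegree + 1),
    C (⟨(Φ.coeff n).coeff k, alg_mem hK (hc n k)⟩ : K) * X i ^ k) * X j ^ n, fun z => ?_⟩
  rw [← hΦ]
  have : (Polynomial.map (Polynomial.evalRingHom (z i)) Φ).eval (z j) =
      ∑ n ∈ Finset.range (Φ.natDegree + 1), (∑ k ∈ Finset.range ((Φ.coeff n).natDegree + 1),
        (Φ.coeff n).coeff k * z i ^ k) * z j ^ n := by
    rw [Polynomial.eval_map, Polynomial.eval₂_eq_sum_range]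
    refine Finset.sum_congr rfl fun n _ => ?_
    rw [Polynomial.coe_evalRingHom, Polynomial.eval_eq_sum_range]
  rw [this]
  simp only [map_sum, map_mul, map_pow, aeval_X, aeval_C]
  rfl

theorem s_rel (hJ : JF) : S_REL := by
  intro ι _ K hK x y hxy
  constructor
  · intro i j N hN h
    obtain ⟨f, hf⟩ := mod_eq hJ.1 hK hN i j
    exact (hf y).1 (hxy f ((hf x).2 h))
  · intro i hi
    have hx : x i ∈ K := alg_mem hK (hJ.2.1.2.2.2.2.2 _ hi)
    have := hxy (X i - C (⟨x i, hx⟩ : K)) (by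
      simp only [map_sub, aeval_X, aeval_C]
      exact sub_self _)
    simp only [map_sub, aeval_X, aeval_C] at this
    exact sub_eq_zero.1 this

theorem s_td (hJ : JF) (hA : AF) : S_TD := by
  intro ι _ K hK x
  obtain ⟨s, hs, hcard⟩ := exists_sd x
  set e := s.equivFin
  refine hA.2.2.2.1 ι K x (sd x) (fun k => x (e.symm (Fin.cast hcard.symm k))) fun i => ?_
  by_cases hi : SpecialPoint (x i)
  · exact (hJ.2.1.2.2.2.2.2 _ hi).extendScalars (algebraMap ℚ _).injective
  · obtain ⟨r, hr, hiso⟩ := rep hJ.2.1 hs hcard hi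
    refine isog_alg hJ.1 hK _ hiso ?_
    have := mem_fld K (fun k : Fin (sd x) => x (e.symm (Fin.cast hcard.symm k)))
      (Fin.cast hcard (e ⟨r, hr⟩))
    simpa using this

theorem s_mono (hJ : JF) : S_MONO := by
  intro ι _ K hK x y hxy
  classical
  obtain ⟨h1, h2⟩ := s_rel hJ ι K hK x y hxy
  have hR := hJ.2.1
  have nsp : ∀ i, ¬ SpecialPoint (y i) → ¬ SpecialPoint (x i) := fun i hi hx =>
    hi (by rw [h2 i hx]; exact hx)
  have iso : ∀ i j, Isog (x i) (x j) → Isog (y i) (y j) := by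
    rintro i j ⟨N, hN, h⟩
    exact ⟨N, hN, h1 i j N hN h⟩
  constructor
  · refine sd_le_of fun s hs => le_sd ⟨fun i hi => nsp i (hs.1 i hi), fun i hi j hj hij h =>
      hs.2 i hi j hj hij (iso i j h)⟩
  · intro i j hi hij hxij
    obtain ⟨s, hs, hcard⟩ := exists_sd y
    obtain ⟨r, hr, hri⟩ := rep hR hs hcard hi
    -- `s' = (s \ {r}) ∪ {i}`
    have hi' : ∀ k ∈ s.erase r, ¬ Isog (y k) (y i) := by
      intro k hk h
      rw [Finset.mem_erase] at hk
      exact hs.2 k hk.2 r hr hk.1 (isog_trans hR h (isog_symm hR hri))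
    have hj' : ∀ k ∈ s.erase r, ¬ Isog (y k) (y j) := fun k hk h =>
      hi' k hk (isog_trans hR h (isog_symm hR hij))
    have hij' : i ≠ j := by
      rintro rfl
      exact hxij (isog_refl hR _)
    have hin : i ∉ insert j (s.erase r) := by
      rw [Finset.mem_insert, not_or]
      exact ⟨hij', fun h => hi' i h (isog_refl hR _)⟩
    have hjn : j ∉ s.erase r := fun h => hj' j h (isog_refl hR _)
    have hjsp : ¬ SpecialPoint (y j) := fun h => hi ((special_iff hR hij).2 h)
    have : Tv x (insert i (insert j (s.erase r))) := by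
      constructor
      · intro k hk
        rw [Finset.mem_insert, Finset.mem_insert] at hk
        rcases hk with rfl | rfl | hk
        · exact nsp _ hi
        · exact nsp _ hjsp
        · exact nsp _ (hs.1 k (Finset.mem_of_mem_erase hk))
      · intro k hk l hl hkl
        rw [Finset.mem_insert, Finset.mem_insert] at hk hl
        rcases hk with rfl | rfl | hk
        · rcases hl with rfl | rfl | hl
          · exact absurd rfl hkl
          · exact hxij
          · exact fun h => hi' l hl (isog_symm hR (iso _ _ h))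
        · rcases hl with rfl | rfl | hl
          · exact fun h => hxij (isog_symm hR h)
          · exact absurd rfl hkl
          · exact fun h => hj' l hl (isog_symm hR (iso _ _ h))
        · rcases hl with rfl | rfl | hl
          · exact fun h => hi' k hk (iso _ _ h)
          · exact fun h => hj' k hk (iso _ _ h)
          · exact fun h => hs.2 k (Finset.mem_of_mem_erase hk) l (Finset.mem_of_mem_erase hl) hkl
              (iso _ _ h)
    have h3 := le_sd this
    rw [Finset.card_insert_of_notMem hin, Finset.card_insert_of_notMem hjn,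
      Finset.card_erase_of_mem hr, hcard] at h3
    have : 0 < s.card := Finset.card_pos.2 ⟨r, hr⟩
    omega

theorem s_le (hJ : JF) : S_LE := by
  intro ι ω ρ _ _ _ x w c h
  obtain ⟨s, hs, hcard⟩ := exists_sd x
  have hR := hJ.2.1
  have := sd_le_card hR (ρ := s ⊕ ρ) (x := Sum.elim x w)
    (Sum.elim (fun r : s => x r) (fun l => w (c l))) (by
      rintro (i | j) hi
      · obtain ⟨r, hr, hri⟩ := rep hR hs hcard (i := i) hi
        exact ⟨Sum.inl ⟨r, hr⟩, hri⟩
      · obtain ⟨l, hl⟩ := h j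
        exact ⟨Sum.inr l, hl⟩)
  rw [Nat.card_sum] at this
  simpa [hcard] using this

theorem s_ge (hJ : JF) : S_GE := by
  intro ι ω ρ _ _ _ x w c h1 h2 h3
  classical
  have := Fintype.ofFinite ρ
  have hR := hJ.2.1
  obtain ⟨s, hs, hcard⟩ := exists_sd x
  have hinj : Function.Injective c := by
    intro l l' h
    by_contra hne
    exact h2 l l' hne (by rw [h]; exact isog_refl hR _)
  have hT : Tv (Sum.elim x w) (s.disjSum (Finset.univ.image c)) := by
    constructor
    · intro k hk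
      rw [Finset.mem_disjSum] at hk
      rcases hk with ⟨i, hi, rfl⟩ | ⟨j, hj, rfl⟩
      · exact hs.1 i hi
      · obtain ⟨l, -, rfl⟩ := Finset.mem_image.1 hj
        exact h1 l
    · intro k hk k' hk' hkk
      rw [Finset.mem_disjSum] at hk hk'
      rcases hk with ⟨i, hi, rfl⟩ | ⟨j, hj, rfl⟩
      · rcases hk' with ⟨i', hi', rfl⟩ | ⟨j', hj', rfl⟩
        · exact hs.2 i hi i' hi' (fun h => hkk (by rw [h]))
        · obtain ⟨l, -, rfl⟩ := Finset.mem_image.1 hj'
          exact h3 i l
      · obtain ⟨l, -, rfl⟩ := Finset.mem_image.1 hj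
        rcases hk' with ⟨i', hi', rfl⟩ | ⟨j', hj', rfl⟩
        · exact fun h => h3 i' l (isog_symm hR h)
        · obtain ⟨l', -, rfl⟩ := Finset.mem_image.1 hj'
          exact h2 l l' (fun h => hkk (by rw [h]))
  have := le_sd hT
  rw [Finset.card_disjSum, Finset.card_image_of_injective _ hinj, Finset.card_univ, hcard] at this
  rwa [Nat.card_eq_fintype_card]

end Pool.Agent.W2helper76.HL
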