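import Pool.Agent.W2helper76.HL.Sd

/-!
# Project HL: the smallest special subvariety which contains a point
-/

set_option autoImplicit false

namespace Pool.Agent.W2helper76.HL

open UpperHalfPlane H294ZP MvPolynomial
open Pool.Agent.W2helper42.HL

theorem s_star (hJ : JF) (hA : AF) (h1 : S_TD) (_h2 : S_MONO) (h3 : S_REL) : S_STAR := by
  intro ι _ K hK x
  classical
  have := Fintype.ofFinite ι
  have hR := hJ.2.1
  obtain ⟨s, hs, hcard⟩ := exists_sd x
  -- the equations
  have heq : ∀ i, ∃ f : MvPolynomial ι K, aeval x f = 0 ∧ ∀ z : ι → ℂ, aeval z f = 0 →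
      (SpecialPoint (x i) → z i = x i) ∧
      (¬ SpecialPoint (x i) → ∃ r ∈ s, Isog (z r) (z i) ∧ Isog (x r) (x i)) := by
    intro i
    by_cases hi : SpecialPoint (x i)
    · have hx : x i ∈ K := alg_mem hK (hR.2.2.2.2.2 _ hi)
      refine ⟨X i - C (⟨x i, hx⟩ : K), ?_, fun z hz => ⟨fun _ => ?_, fun h => absurd hi h⟩⟩
      · simp only [map_sub, aeval_X, aeval_C]
        exact sub_self _
      · simp only [map_sub, aeval_X, aeval_C] at hz
        exact sub_eq_zero.1 hz
    · obtain ⟨r, hr, N, hN, hc⟩ := rep hR hs hcard hi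
      obtain ⟨f, hf⟩ := mod_eq hJ.1 hK hN r i
      exact ⟨f, (hf x).2 hc, fun z hz => ⟨fun h => absurd h hi, fun _ =>
        ⟨r, hr, ⟨N, hN, (hf z).1 hz⟩, ⟨N, hN, hc⟩⟩⟩⟩
  choose f hfx hf using heq
  -- Krull's theorem, once for each equation
  have hind : ∀ T : Finset ι, ∃ b : ι → ℂ, Sp K b x ∧ (∀ i ∈ T, aeval b (f i) = 0) ∧
      Nat.card ι ≤ td K b + T.card := by
    intro T
    induction T using Finset.induction_on with
    | empty =>
      obtain ⟨b, hb, hb'⟩ := hA.2.2.1 ι K hK
      exact ⟨b, hb' x, by simp, by simp [hb]⟩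
    | insert i T hiT ih =>
      obtain ⟨b, hbx, hbT, hb⟩ := ih
      rw [Finset.card_insert_of_notMem hiT]
      by_cases h0 : aeval b (f i) = 0
      · refine ⟨b, hbx, ?_, by omega⟩
        intro j hj
        rcases Finset.mem_insert.1 hj with rfl | hj
        · exact h0
        · exact hbT j hj
      · obtain ⟨b', hbb, hbx', hb0, hbt, -⟩ := hA.2.1 ι K hK b x (f i) hbx h0 (hfx i)
        refine ⟨b', hbx', ?_, by omega⟩
        intro j hj
        rcases Finset.mem_insert.1 hj with rfl | hj
        · exact hb0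
        · exact hbb _ (hbT j hj)
  obtain ⟨b, hbx, hbT, hb⟩ := hind sᶜ
  have hge : sd x ≤ td K b := by
    rw [Finset.card_compl, Nat.card_eq_fintype_card] at hb
    have := Finset.card_le_univ s
    omega
  -- representatives for `b`
  have hrep : ∀ i, ¬ SpecialPoint (x i) → ∃ r ∈ s, Isog (b r) (b i) ∧ Isog (x r) (x i) := by
    intro i hi
    by_cases his : i ∈ s
    · exact ⟨i, his, isog_refl hR _, isog_refl hR _⟩
    · exact (hf i b (hbT i (Finset.mem_compl.2 his))).2 hi
  have hsp : ∀ i, SpecialPoint (x i) → b i = x i := by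
    intro i hi
    have his : i ∉ s := fun his => hs.1 i his hi
    exact (hf i b (hbT i (Finset.mem_compl.2 his))).1 hi
  have hle : sd b ≤ sd x := by
    have := sd_le_card hR (ρ := s) (x := b) (fun r : s => b r) (by
      intro i hi
      have hxi : ¬ SpecialPoint (x i) := fun h => hi (by rw [hsp i h]; exact h)
      obtain ⟨r, hr, h, -⟩ := hrep i hxi
      exact ⟨⟨r, hr⟩, h⟩)
    simpa [hcard] using this
  have htd := h1 ι K hK b
  refine ⟨b, hbx, by omega, by omega, ?_, hsp⟩
  intro i j N hN hc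
  have hij : Isog (x i) (x j) := ⟨N, hN, hc⟩
  by_cases hi : SpecialPoint (x i)
  · have hj : SpecialPoint (x j) := (special_iff hR hij).1 hi
    rw [hsp i hi, hsp j hj]
    exact hc
  · have hj : ¬ SpecialPoint (x j) := fun h => hi ((special_iff hR hij).2 h)
    obtain ⟨r, hr, hb1, hx1⟩ := hrep i hi
    obtain ⟨r', hr', hb2, hx2⟩ := hrep j hj
    have hrr : r = r' := by
      by_contra hne
      exact hs.2 r hr r' hr' hne (isog_trans hR hx1 (isog_trans hR hij (isog_symm hR hx2)))
    subst hrr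
    obtain ⟨M, hM, hcM⟩ := isog_trans hR (isog_symm hR hb1) hb2
    have hcx := (h3 ι K hK b x hbx).1 i j M hM hcM
    have hMN : M = N := hR.2.2.2.1 M N (x i) (x j) hM hN hi hcx hc
    rwa [← hMN]

end Pool.Agent.W2helper76.HL
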