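import Pool.Agent.W2helper42.HL.Stm

/-!
# Project HL: common lemmas
-/

set_option autoImplicit false

namespace Pool.Agent.W2helper76.HL

open UpperHalfPlane H294ZP MvPolynomial
open Pool.Agent.W2helper42.HL

/-- algebraic numbers lie in all algebraically closed subfields -/
lemma alg_mem {K : Subfield ℂ} (hK : Gd K) {a : ℂ} (ha : IsAlgebraic ℚ a) : a ∈ K := by
  haveI : IsAlgClosed K := hK.2
  have h1 : IsAlgebraic K a := ha.extendScalars (algebraMap ℚ K).injective
  have h2 : IsIntegral K a := h1.isIntegral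
  have h3 : (minpoly K a).degree = 1 :=
    IsAlgClosed.degree_eq_one_of_irreducible K (minpoly.irreducible h2)
  obtain ⟨b, hb⟩ := minpoly.mem_range_of_degree_eq_one K a h3
  rw [← hb]
  exact b.2

/-- lifting a polynomial -/
lemma lift_mv {σ : Type} {K : Subfield ℂ} (f : MvPolynomial σ ℂ) (hf : ∀ m, f.coeff m ∈ K) :
    ∃ g : MvPolynomial σ K, ∀ x : σ → ℂ, aeval x g = eval x f := by
  have : f ∈ Set.range (MvPolynomial.map (algebraMap K ℂ)) := by
    rw [mem_range_map_iff_coeffs_subset]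
    intro c hc
    obtain ⟨m, _, rfl⟩ := mem_coeffs_iff.1 (Finset.mem_coe.1 hc)
    exact ⟨⟨f.coeff m, hf m⟩, rfl⟩
  obtain ⟨g, hg⟩ := this
  refine ⟨g, fun x => ?_⟩
  rw [← hg, eval_map, aeval_def]

/-- a point isogenous to a point of `F` is algebraic over `F` -/
lemma cyc_alg (hJ : J_POLY) {K : Subfield ℂ} (hK : Gd K) (F : IntermediateField K ℂ) {N : ℕ}
    (hN : 0 < N) {x y : ℂ} (h : Cyc N x y) (hx : x ∈ F) : IsAlgebraic F y := by
  obtain ⟨Φ, hm, hc, hΦ⟩ := hJ N hN
  have h0 := (hΦ x y).2 h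
  set P := Φ.map (Polynomial.evalRingHom x) with hP
  have hPm : P.Monic := hm.map _
  have hl : P ∈ Polynomial.lifts (algebraMap F ℂ) := by
    rw [Polynomial.lifts_iff_coeff_lifts]
    intro n
    have hmem : P.coeff n ∈ F := by
      rw [hP, Polynomial.coeff_map, Polynomial.coe_evalRingHom, Polynomial.eval_eq_sum_range]
      refine sum_mem fun i _ => mul_mem ?_ (pow_mem hx i)
      exact F.algebraMap_mem (⟨_, alg_mem hK (hc n i)⟩ : K)
    exact ⟨⟨_, hmem⟩, rfl⟩
  obtain ⟨q, hq⟩ := (Polynomial.mem_lifts _).1 hl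
  refine ⟨q, ?_, ?_⟩
  · rintro rfl
    rw [Polynomial.map_zero] at hq
    exact hPm.ne_zero hq.symm
  · rw [Polynomial.aeval_def, ← Polynomial.eval_map, hq, h0]

lemma isog_alg (hJ : J_POLY) {K : Subfield ℂ} (hK : Gd K) (F : IntermediateField K ℂ)
    {x y : ℂ} (h : Isog x y) (hx : x ∈ F) : IsAlgebraic F y := by
  obtain ⟨N, hN, hc⟩ := h
  exact cyc_alg hJ hK F hN hc hx

lemma mem_fld {ι : Type} (K : Subfield ℂ) (x : ι → ℂ) (i : ι) : x i ∈ fld K x :=
  IntermediateField.subset_adjoin K _ (Set.mem_range_self i)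

lemma alg_mem_fld {K : Subfield ℂ} (hK : Gd K) (F : IntermediateField K ℂ) {a : ℂ}
    (ha : IsAlgebraic ℚ a) : a ∈ F :=
  F.algebraMap_mem (⟨_, alg_mem hK ha⟩ : K)

lemma mem_fld_of_mem {K : Subfield ℂ} (F : IntermediateField K ℂ) {a : ℂ}
    (ha : a ∈ K) : a ∈ F :=
  F.algebraMap_mem (⟨_, ha⟩ : K)

lemma algebraic_of_mem {K : Subfield ℂ} (F : IntermediateField K ℂ) {a : ℂ} (ha : a ∈ F) :
    IsAlgebraic F a :=
  isAlgebraic_algebraMap (⟨a, ha⟩ : F)

lemma algebraic_mono {K : Subfield ℂ} {F G : IntermediateField K ℂ} (h : F ≤ G) {a : ℂ}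
    (ha : IsAlgebraic F a) : IsAlgebraic G a := by
  letI : Algebra F G := (IntermediateField.inclusion h).toAlgebra
  haveI : IsScalarTower F G ℂ := IsScalarTower.of_algebraMap_eq fun _ => rfl
  exact ha.extendScalars (IntermediateField.inclusion h).injective

lemma fld_le {ι : Type} {K : Subfield ℂ} {x : ι → ℂ} {F : IntermediateField K ℂ}
    (h : ∀ i, x i ∈ F) : fld K x ≤ F := by
  rw [fld, IntermediateField.adjoin_le_iff]
  rintro _ ⟨i, rfl⟩
  exact h i

/-- values of polynomials over `K` -/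
lemma eval_mem {σ : Type} {K : Subfield ℂ} (F : IntermediateField K ℂ) (g : MvPolynomial σ K)
    {x : σ → ℂ} (hx : ∀ i, x i ∈ F) : aeval x g ∈ F := by
  induction g using MvPolynomial.induction_on with
  | C a => simpa using F.algebraMap_mem a
  | add p q hp hq => simpa using add_mem hp hq
  | mul_X p i hp => simpa using mul_mem hp (hx i)

end Pool.Agent.W2helper76.HL
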